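import Pool.Agent.Q220.FC.PairM

/-!
# MP_f5d5f4_nt: no congruences between families with different additive places, for all levels `n ≥ 3`

Let `A`, `B` be polynomials with integral coefficients, `Δ = 4A³ + 27B²`, and let `P` be an irreducible
factor of `Δ`, not constant, of multiplicity `w`, such that the curve `E : y² = x³ + Ax + B` over the function
field has ADDITIVE, POTENTIALLY GOOD reduction along `P = 0`: `P ^ a` divides `A`, `w ≤ 3 a`, and `12` does not
divide `w` (the types `II, III, IV, I₀*, IV*, III*, II*` for minimal equations). Put `U = 12 / gcd(12, w)`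
(the order of the inertia group). Let `E' : y² = x³ + A'x + B'` be a second family, with good reduction along
`P = 0`, that is, `P` does not divide `Δ' = 4A'³ + 27B'²`.

**Part 1.** For every `ε > 0` all but at most `C H ^ (r - 1 + deg P / U + ε)` of the about `(2H) ^ r` integral
`t = (t_1, …, t_r)`, `|t_j| ≤ H`, with `Δ(t) Δ'(t) ≠ 0` have this property: for ALL `n ≥ 3` and ALL number
fields `L` of degree prime to `6`, in which the prime factors `p ≥ 17` of `n` dividing `P(t)` do not ramify, the
curves `E_t` and `E'_t` are NOT `n`-congruent over `L` (the Galois modules `E_t[n]`, `E'_t[n]` are not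
isomorphic).

**Part 2.** The same for two families with different parameters: all but `C H ^ (r + r' - 1 + deg P / U + ε)`
of the pairs `(s, t)` of integral points of height at most `H` have the property that `E_s` and `E'_t` are not
`n`-congruent, for all these `n` and `L`. There is no condition at all on the second family. In particular this
holds for the pairs of members of ONE family.

So for such families the assertion of the uniform Frey-Mazur conjecture is true for 100 per cent of the pairs,
already for all `n ≥ 3`, prime or not (for `n = 3, 4, 5` every curve has infinitely many `n`-congruent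
curves which are not isogenous, and for `n = 7, 11, 13, 17` there are such pairs), and the number of
exceptions is smaller by a power of `H`; the exceptional set does not depend on `n` or on the field.

**Examples.** (1) `y² = x³ + s`, `y² = x³ + t` (`P = s`, `w = 2`, `U = 6`): of the about `4H²` pairs of
these curves at most `C H ^ (7/6 + ε)` are congruent modulo some `n ≥ 3`; the isomorphic pairs `s = t u ^ 6` are more
than `c H`. (2) `y² = x³ + s x`, `y² = x³ + t x` (`w = 3`, `U = 4`): `C H ^ (5/4 + ε)`. (3) `y² = x³ + s` and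
`y² = x³ + t x`: `C H ^ (7/6 + ε)`, and the same for `y² = x³ + s` against ANY family with one parameter.
(4) `y² = x³ + t` and `y² = x³ + t + 1`: `C H ^ (1/6 + ε)`. (5) Families of quadratic twists
`y² = x³ + s² a x + s³ b` (`P = s`, `w = 6`, `U = 2`) against any family: `C H ^ (r' + 1/2 + ε)`.

The invariants are constant in all these examples, so they are not accessible to the theorems on families in
the starting files (`UniformInFamilies`, `FewDigitFamilies`) and in `MultiParameterPairs`, which need a pole of the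
invariant and a prime level `p ≥ 13`, and which compare the `p`-division fields.

**Proof.** Let `q ≥ 17` be a prime with `q ∣ P(t)`, where `q` divides neither `Δ/P ^ w` nor `Δ'` at `t`. So
`E'_t` has good reduction at all places above `q`; by the local theorems of the starting library
(`Pool.Agent.Y673.FM.{tameG, locG}`; `locG` in the case `q ∣ n`) `12` divides the valuation of `Δ(t)` at
all places above `q`, and since the degree of `L` is prime to `2` and `3`, `12` divides `w v_q(P(t))`. Hence
`P(t)` is a `U`-th power up to primes less than `17` or dividing the value of a resultant, and such points are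
counted in `Pool.Agent.Q170.FZ`. Part 2 is Part 1 for `r + r'` parameters: `P(s)` does not divide `Δ'(t)`.
-/

set_option autoImplicit false

open MvPolynomial NumberField IsDedekindDomain
open scoped Classical

namespace Pool.Agent.Results.MP_f5d5f4_nt.AdditivePlaces

section
variable {L : Type} [Field L]

/-- The curve `y² = x³ + Ax + B` over `L`. -/
def curve (A B : L) : WeierstrassCurve L := ⟨0, 0, 0, A, B⟩

/-- The group of its points over the algebraic closure of `L`. -/
abbrev Points (A B : L) : Type := ((curve A B).baseChange (AlgebraicClosure L)).toAffine.Point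

/-- The action of an `L`-automorphism `σ` of the algebraic closure on the points. -/
noncomputable def galois (A B : L) (σ : AlgebraicClosure L ≃ₐ[L] AlgebraicClosure L) :
    Points A B →+ Points A B :=
  WeierstrassCurve.Affine.Point.map (σ : AlgebraicClosure L →ₐ[L] AlgebraicClosure L)

/-- The curves `y² = x³ + Ax + B` and `y² = x³ + A'x + B'` are `n`-congruent over `L`: some map between
the groups of points restricts to a bijective additive map of the points killed by `n` which commutes
with the Galois group of `L`. -/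
def Congruent (n : ℕ) (A B A' B' : L) : Prop :=
  ∃ f : Points A B → Points A' B', (∀ P Q, n • P = 0 → n • Q = 0 → f (P + Q) = f P + f Q) ∧
    Set.BijOn f {P | n • P = 0} {Q | n • Q = 0} ∧
    ∀ (σ : AlgebraicClosure L ≃ₐ[L] AlgebraicClosure L) (P : Points A B), n • P = 0 →
      f (galois A B σ P) = galois A' B' σ (f P)

end

/-- The curves `y² = x³ + ax + b` and `y² = x³ + a'x + b'` are `n`-congruent for some `n ≥ 3` over some number
field `L` of degree prime to `6` in which the primes `p ≥ 17` dividing `n` and `d` do not ramify. -/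
def Companions (d a b a' b' : ℤ) : Prop :=
  ∃ (n : ℕ) (L : Type) (_ : Field L) (_ : NumberField L), 3 ≤ n ∧
    (Module.finrank ℚ L).Coprime 6 ∧
    (∀ p : ℕ, p.Prime → 17 ≤ p → p ∣ n → (p : ℤ) ∣ d →
      ∀ v : HeightOneSpectrum (𝓞 L), (p : 𝓞 L) ∉ v.asIdeal ^ 2) ∧
    Congruent n (a : L) (b : L) (a' : L) (b' : L)

theorem bad3 {d a b a' b' : ℤ} (h : Companions d a b a' b') :
    Pool.Agent.Q220.FC.Bad3 d a b a' b' := by
  obtain ⟨n, L, iF, iN, hn, hL, hram, f, h1, h2, h3⟩ := h
  exact ⟨n, hn, L, iF, iN, hL, hram, f, h1, h2, h3⟩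

/-- **No congruences between families with different additive places.** -/
theorem result :
    (∀ (r : ℕ) (A B A' B' P G : MvPolynomial (Fin r) ℤ) (w a : ℕ), Irreducible P →
      0 < P.totalDegree → 4 * A ^ 3 + 27 * B ^ 2 = P ^ w * G → ¬ P ∣ G → P ^ a ∣ A → w ≤ 3 * a →
      ¬ 12 ∣ w → ¬ P ∣ 4 * A' ^ 3 + 27 * B' ^ 2 →
      ∀ ε : ℝ, 0 < ε → ∃ C : ℝ, 0 < C ∧ ∀ H : ℕ, 1 ≤ H →
        ((({t : Fin r → ℤ | (∀ j, |t j| ≤ H) ∧ 4 * (eval t A) ^ 3 + 27 * (eval t B) ^ 2 ≠ 0 ∧
          4 * (eval t A') ^ 3 + 27 * (eval t B') ^ 2 ≠ 0 ∧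
          Companions (eval t P) (eval t A) (eval t B) (eval t A') (eval t B')}).ncard : ℕ) : ℝ) ≤
          C * (H : ℝ) ^ ((r : ℝ) - 1 + P.totalDegree / ((12 / Nat.gcd 12 w : ℕ) : ℝ) + ε)) ∧
    (∀ (r r' : ℕ) (A B P G : MvPolynomial (Fin r) ℤ) (A' B' : MvPolynomial (Fin r') ℤ) (w a : ℕ),
      Irreducible P → 0 < P.totalDegree → 4 * A ^ 3 + 27 * B ^ 2 = P ^ w * G → ¬ P ∣ G →
      P ^ a ∣ A → w ≤ 3 * a → ¬ 12 ∣ w →
      ∀ ε : ℝ, 0 < ε → ∃ C : ℝ, 0 < C ∧ ∀ H : ℕ, 1 ≤ H →
        ((({z : (Fin r → ℤ) × (Fin r' → ℤ) | (∀ j, |z.1 j| ≤ H) ∧ (∀ j, |z.2 j| ≤ H) ∧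
          4 * (eval z.1 A) ^ 3 + 27 * (eval z.1 B) ^ 2 ≠ 0 ∧
          4 * (eval z.2 A') ^ 3 + 27 * (eval z.2 B') ^ 2 ≠ 0 ∧
          Companions (eval z.1 P) (eval z.1 A) (eval z.1 B) (eval z.2 A')
            (eval z.2 B')}).ncard : ℕ) : ℝ) ≤
          C * (H : ℝ) ^ ((r : ℝ) + r' - 1 + P.totalDegree / ((12 / Nat.gcd 12 w : ℕ) : ℝ) + ε)) := by
  constructor
  · intro r A B A' B' P G w a hP hPd hG hPG ha hwa h12 hPE ε hε
    obtain ⟨C, hC, h⟩ := Pool.Agent.Q220.FC.fam3 A B A' B' P G hP hPd w a hG hPG hPE ha hwa h12 ε hε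
    refine ⟨C, hC, fun H hH => ?_⟩
    set S := {t : Fin r → ℤ | (∀ j, |t j| ≤ H) ∧ 4 * (eval t A) ^ 3 + 27 * (eval t B) ^ 2 ≠ 0 ∧
      4 * (eval t A') ^ 3 + 27 * (eval t B') ^ 2 ≠ 0 ∧
      Companions (eval t P) (eval t A) (eval t B) (eval t A') (eval t B')} with hS
    have hsub : S ⊆ ((Pool.Agent.Q170.ZP.Count.box r H : Finset (Fin r → ℤ)) :
        Set (Fin r → ℤ)) := fun t ht =>
      Finset.mem_coe.2 (Pool.Agent.Q170.ZP.Count.mem_box.2 ht.1)
    have hfin : S.Finite := (Finset.finite_toSet _).subset hsub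
    rw [Set.ncard_eq_toFinset_card S hfin]
    refine h H hH hfin.toFinset (fun t ht => Finset.mem_coe.1 (hsub (hfin.mem_toFinset.1 ht)))
      fun t ht => ?_
    obtain ⟨-, h1, h2, h3⟩ := hfin.mem_toFinset.1 ht
    exact ⟨h1, h2, bad3 h3⟩
  · intro r r' A B P G A' B' w a hP hPd hG hPG ha hwa h12 ε hε
    obtain ⟨C, hC, h⟩ := Pool.Agent.Q220.FC.fam4 A B P G A' B' hP hPd w a hG hPG ha hwa h12 ε hε
    refine ⟨C, hC, fun H hH => h H hH _ fun z hz => ?_⟩
    obtain ⟨h1, h2, h3, h4, h5⟩ := hz
    exact ⟨h1, h2, h3, h4, bad3 h5⟩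

end Pool.Agent.Results.MP_f5d5f4_nt.AdditivePlaces
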