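import Pool.Agent.Q170.FZ.Pairs

/-!
# MP_f5d5f4_nt: no congruences for almost all members of families of pairs with several parameters

Let `F/G` and `F'/G'` be rational functions of `r` parameters `t = (t_1, …, t_r)`, quotients of polynomials
with integral coefficients. We consider the pairs of elliptic curves `E_t`, `E'_t` with the invariants
`j(E_t) = F(t)/G(t)`, `j(E'_t) = F'(t)/G'(t)`, for integral `t`; all twists are admitted. We suppose that
the first invariant has a pole along some hypersurface which is not a pole of the second: there is an
irreducible polynomial `P`, not constant, which divides `G` exactly `w ≥ 1` times, but not `F` and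
not `G'`.

**Theorem.** Let `N ≥ 13` and `N > w`. For every `ε > 0` all but at most `C H ^ (r - 1 + deg P / N + ε)` of
the about `(2 H) ^ r` integral `t` with `|t_j| ≤ H` have the following property: for ALL primes `p ≥ N` and
ALL number fields `L` of degree less than `p` there are NO elliptic curves `E`, `E'` over `L` with the
invariants `F(t)/G(t)`, `F'(t)/G'(t)` and the same `p`-division field over `L`; in particular, `E[p]` and
`E'[p]` are not isomorphic Galois modules over `L` (part 2). The curves `E`, `E'` can be any twists and
need not be defined over `ℚ`.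

So the uniform conjecture of Frey and Mazur is true, with an explicit bound for the primes `p` which
depends only on `w` and `deg P` (`p ≥ 13`, `p > w`, `p > deg P`), for 100 per cent of the members of
every such family, over all number fields of degree less than `p` at once, and the number of exceptions
is smaller by a power of `H`. The exponent is optimal up to `deg P / N + ε`: on the hypersurface
`F G' = F' G` the curves can be chosen to be isomorphic, and it can contain about `H ^ (r - 1)` points.

Examples. (1) `j = t_1/t_2`, `j' = t_3/t_4`, `P = t_2`: at most `C H ^ (3 + 1/13 + ε)` of the pairs of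
rational invariants of height at most `H` have a congruence modulo a prime `p ≥ 13` over a number
field of degree less than `p`. (2) `y² = x³ + Ax + B` and `y² = x³ + A'x + B'` with four parameters,
`P = 4A³ + 27B²`: `C H ^ (3 + 3/13 + ε)` exceptions. (3) Two families `E_t`, `E'_s` with different
parameters, or `E'` fixed. (4) `E_t` and `E_{s(t)}` for a polynomial map `s`, for instance `E_t` and
`E_{t+1}` in a family with one parameter, if the discriminants have different irreducible factors.

The starting files about families: `UniformInFamilies`, `FewPartners` (one-parameter families, a fixed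
curve `E₀`, no pairs), `FewDigitFamilies` (pairs of one-parameter families with an `I₁` fibre, all but a
proportion `ε`). Here the number of parameters, the multiplicity `w`, and the second family are
arbitrary, with a power saving.

**Proof.** Let `q > 3` be a prime dividing `P(t)`, where `q` does not divide the value of a resultant of
`P` and `F G G' / P^w` with respect to one of the parameters. So `v_q(j) = - w v_q(P(t)) < 0 ≤ v_q(j')`.
Let `v` be a place of `L` above `q`. By the local theorem of helper673 (`Pool.Agent.Y673.FM.loc`), which
includes the case `q = p`, `p` divides `v(j)`, and since the ramification index is less than `p` and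
`w < p`, `p` divides `v_q(P(t))`. Therefore `P(t)` is a `p`-th power up to prime factors which are at most
`3` or divide the resultant. For given values of the other parameters there are at most
`C H ^ (deg P / N + ε)` such numbers, as values of `P(t)`.
-/

set_option autoImplicit false

open MvPolynomial NumberField
open scoped Classical

namespace Pool.Agent.Results.MP_f5d5f4_nt.MultiParameterPairs

section
variable {L : Type} [Field L]

/-- The curve `y² = x³ + Ax + B` over `L`. -/
def curve (A B : L) : WeierstrassCurve L := ⟨0, 0, 0, A, B⟩

/-- The group of its points over the algebraic closure of `L`. -/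
abbrev Points (A B : L) : Type := ((curve A B).baseChange (AlgebraicClosure L)).toAffine.Point

/-- The action of an `L`-automorphism `σ` of the algebraic closure on the points. -/
noncomputable def galois (A B : L) (σ : AlgebraicClosure L ≃ₐ[L] AlgebraicClosure L) :
    Points A B →+ Points A B :=
  WeierstrassCurve.Affine.Point.map (σ : AlgebraicClosure L →ₐ[L] AlgebraicClosure L)

/-- The curves `y² = x³ + Ax + B` and `y² = x³ + A'x + B'` have the same `p`-division field: an
automorphism fixes all points killed by `p` of the first if and only if it fixes all points killed by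
`p` of the second. -/
def SameDivisionField (p : ℕ) (A B A' B' : L) : Prop :=
  ∀ σ : AlgebraicClosure L ≃ₐ[L] AlgebraicClosure L,
    (∀ P : Points A B, p • P = 0 → galois A B σ P = P) ↔
      (∀ P : Points A' B', p • P = 0 → galois A' B' σ P = P)

/-- The curves are `p`-congruent over `L`: some map between the groups of points restricts to a bijective
additive map of the points killed by `p` which commutes with the Galois group of `L`. -/
def Congruent (p : ℕ) (A B A' B' : L) : Prop :=
  ∃ f : Points A B → Points A' B', (∀ P Q, p • P = 0 → p • Q = 0 → f (P + Q) = f P + f Q) ∧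
    Set.BijOn f {P | p • P = 0} {Q | p • Q = 0} ∧
    ∀ (σ : AlgebraicClosure L ≃ₐ[L] AlgebraicClosure L) (P : Points A B), p • P = 0 →
      f (galois A B σ P) = galois A' B' σ (f P)

/-- The invariant of `y² = x³ + Ax + B`. -/
noncomputable def jInvariant (A B : L) : L := 6912 * A ^ 3 / (4 * A ^ 3 + 27 * B ^ 2)

end

/-- For some prime `p ≥ N` and some number field `L` of degree less than `p`, there are elliptic curves
over `L` with the invariants `j` and `j'` and the same `p`-division field. -/
def Companions (N : ℕ) (j j' : ℚ) : Prop :=
  ∃ p : ℕ, p.Prime ∧ N ≤ p ∧ ∃ (L : Type) (_ : Field L) (_ : NumberField L),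
    Module.finrank ℚ L < p ∧ ∃ A B A' B' : L, 4 * A ^ 3 + 27 * B ^ 2 ≠ 0 ∧
      4 * A' ^ 3 + 27 * B' ^ 2 ≠ 0 ∧ jInvariant A B = algebraMap ℚ L j ∧
      jInvariant A' B' = algebraMap ℚ L j' ∧ SameDivisionField p A B A' B'

/-- **No congruences for almost all members of families of pairs with several parameters.** -/
theorem result :
    (∀ (r : ℕ) (F G F' G' P : MvPolynomial (Fin r) ℤ) (w : ℕ), Irreducible P →
      0 < P.totalDegree → 1 ≤ w → P ^ w ∣ G → ¬ P ^ (w + 1) ∣ G → ¬ P ∣ F → ¬ P ∣ G' →
      ∀ N : ℕ, 13 ≤ N → w < N → ∀ ε : ℝ, 0 < ε → ∃ C : ℝ, 0 < C ∧ ∀ H : ℕ, 1 ≤ H →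
        ((({t : Fin r → ℤ | (∀ j, |t j| ≤ H) ∧ eval t G ≠ 0 ∧ eval t G' ≠ 0 ∧
          Companions N ((eval t F : ℚ) / (eval t G : ℚ))
            ((eval t F' : ℚ) / (eval t G' : ℚ))}).ncard : ℕ) : ℝ) ≤
          C * (H : ℝ) ^ ((r : ℝ) - 1 + P.totalDegree / (N : ℝ) + ε)) ∧
    (∀ (L : Type) [Field L] (p : ℕ) (A B A' B' : L), Congruent p A B A' B' →
      SameDivisionField p A B A' B') := by
  refine ⟨?_, ?_⟩
  · intro r F G F' G' P w hP hPd hw hw1 hw2 hPF hPG' N hN hwN ε hε
    obtain ⟨C, hC, h⟩ := Pool.Agent.Q170.FZ.pairs F G F' G' P hP hPd w hw hw1 hw2 hPF hPG' N hN hwN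
      ε hε
    refine ⟨C, hC, fun H hH => ?_⟩
    obtain ⟨S, hS⟩ : ∃ S : Set (Fin r → ℤ), S = {t : Fin r → ℤ | (∀ j, |t j| ≤ H) ∧
        eval t G ≠ 0 ∧ eval t G' ≠ 0 ∧ Companions N ((eval t F : ℚ) / (eval t G : ℚ))
            ((eval t F' : ℚ) / (eval t G' : ℚ))} := ⟨_, rfl⟩
    rw [← hS]
    have hsub : S ⊆ ((Pool.Agent.Q170.ZP.Count.box r H : Finset (Fin r → ℤ)) :
        Set (Fin r → ℤ)) := by
      intro t ht
      rw [hS] at ht
      exact Finset.mem_coe.2 (Pool.Agent.Q170.ZP.Count.mem_box.2 ht.1)
    have hfin : S.Finite := (Finset.finite_toSet _).subset hsub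
    have h1 := h H hH hfin.toFinset (fun t ht => Finset.mem_coe.1 (hsub (hfin.mem_toFinset.1 ht)))
      (fun t ht => by
        have h2 := hfin.mem_toFinset.1 ht
        rw [hS] at h2
        obtain ⟨-, h3, h4, p, hp, hNp, L, iF, iN, hL, A, B, A', B', hD, hD', hj, hj', hF⟩ := h2
        refine ⟨h3, h4, p, hp, hNp, L, iF, iN, hL, A, B, A', B', hD, hD', ?_, ?_, hF⟩
        · refine hj.trans ?_
          rw [map_div₀, map_intCast, map_intCast]
        · refine hj'.trans ?_
          rw [map_div₀, map_intCast, map_intCast])
    rwa [← Set.ncard_eq_toFinset_card S hfin] at h1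
  · rintro L _ p A B A' B' ⟨f, -, h1, h2⟩ σ
    constructor
    · intro h Q hQ
      obtain ⟨P, hP, rfl⟩ := h1.surjOn (show Q ∈ {Q | p • Q = 0} from hQ)
      rw [← h2 σ P hP, h P hP]
    · intro h P hP
      have h3 : p • galois A B σ P = 0 := by
        rw [← map_nsmul]
        have : p • P = 0 := hP
        rw [this, map_zero]
      refine h1.injOn (show galois A B σ P ∈ {P | p • P = 0} from h3)
        (show P ∈ {P | p • P = 0} from hP) ?_
      rw [h2 σ P hP]
      exact h _ (h1.mapsTo (show P ∈ {P | p • P = 0} from hP))

end Pool.Agent.Results.MP_f5d5f4_nt.MultiParameterPairs
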