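import Pool.Agent.Q46.FR.FinQ

/-!
# MP_f5d5f4_nt: the uniform Frey-Mazur conjecture for all pairs (E₁, E₂), E₁ a quadratic twist of a curve
with good reduction outside c, den j(E₂) < (√p - 1)^(2p)

Let `c ≥ 1`. There is a constant `C = C(c)` such that for every prime `p > C` the following holds. Let `E₁`
be ANY QUADRATIC TWIST (by some integer `d ≠ 0`) of ANY elliptic curve `y² = x³ + A₁x + B₁` over `ℚ` with
integral `A₁, B₁` such that all prime divisors of `4A₁³ + 27B₁²` divide `c`, and let `E₂` be ANY elliptic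
curve over `ℚ` which is `p`-congruent to `E₁`. Then

* `E₁` and `E₂` are ISOGENOUS (they have the same number of points modulo all but finitely many primes), or
* the denominator of `j(E₂)` is at least `(√p - 1) ^ (2p)`; more precisely there is a prime `l ∤ 6c`, with
  `√l ≥ √p - 1`, which divides the denominator of `j(E₂)` to a power divisible by `p`, and `l = p` or
  `p` divides `#E(𝔽_l)` or `2l + 2 - #E(𝔽_l)` for `E : y² = x³ + A₁x + B₁` (that is, `a_l ≡ ± (l + 1)` modulo
  `p`: level raising).

So for the pairs with `den j(E₂) < (√p - 1) ^ (2p)` (about `p ^ p`) the conclusion of the uniform Frey-Mazur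
conjecture is true; the numerator of `j(E₂)` and the twist are arbitrary, and there is no restriction on the
primes of additive reduction of `E₂`. Every curve `E₁` over `ℚ` is covered, for some `c`; the constant is the
same for all quadratic twists of all curves with good reduction outside `c`, so for a given invariant
`j(E₁) ≠ 0, 1728` it is the same for all curves with this invariant.

**Proof.** Twist both curves by `d`. (1) Let `l ∤ c` be a prime `> 17`. If `l` divides the denominator of
`j(E₂)` then `p` divides the exponent, also for `l = p` (theorems `FM.loc`, `FM.tameM` of helper673);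
otherwise `E₂` has good reduction at `l` (`FM.locG`, `FM.tameG`). Without a pole `E₂` belongs to a finite
set by Shafarevich's theorem (`Q46/FM`). (2) Let `l` be a pole, `l ≠ p`. The relation
`σ² - a_l σ + l = 0` for a Frobenius element on the `p`-torsion of `E₁` (proved from Manin's relation
`φ² - a φ + q = 0` for the Frobenius of an elliptic curve over a finite field, which is proved with the degree
form on the points of the twisted curve over the field of rational functions, and from the reduction
homomorphism) is compared with the action of `σ` on the quotient of `E₂[p]` by the points of level zero,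
which is `± 1`: so `p ∣ l + 1 ∓ a_l`, and by the Hasse bound `p ≤ (√l + 1)²`. (3) For two curves with good
reduction at `l` the relation gives `p ∣ a_l(E₁) - a_l(E₂)`, so each of the finitely many pairs of
curves without poles which are not isogenous excludes all large `p`.
The lemmas on the degree form were proved by helpers 14, 16 and 210; the reduction homomorphism is by
helper901, the local theory by helper673.
-/

set_option autoImplicit false

open NumberField
open scoped Classical

namespace Pool.Agent.Results.MP_f5d5f4_nt.PartnersWithSmallDenominator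

/-- The curve `y² = x³ + Ax + B` over `ℚ`. -/
def curve (A B : ℚ) : WeierstrassCurve ℚ := ⟨0, 0, 0, A, B⟩

/-- The group of its points over the algebraic closure of `ℚ`. -/
abbrev Points (A B : ℚ) : Type := ((curve A B).baseChange (AlgebraicClosure ℚ)).toAffine.Point

/-- The action of an automorphism `σ` of the algebraic closure on the points. -/
noncomputable def galois (A B : ℚ) (σ : AlgebraicClosure ℚ ≃ₐ[ℚ] AlgebraicClosure ℚ) :
    Points A B →+ Points A B :=
  WeierstrassCurve.Affine.Point.map (σ : AlgebraicClosure ℚ →ₐ[ℚ] AlgebraicClosure ℚ)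

/-- The curves `y² = x³ + Ax + B` and `y² = x³ + A'x + B'` are `p`-congruent: some map between the
groups of points restricts to a bijective additive map between the groups of points killed by `p` which
commutes with the Galois group. -/
def Congruent (p : ℕ) (A B A' B' : ℚ) : Prop :=
  ∃ f : Points A B → Points A' B', (∀ P Q, p • P = 0 → p • Q = 0 → f (P + Q) = f P + f Q) ∧
    Set.BijOn f {P | p • P = 0} {Q | p • Q = 0} ∧
    ∀ (σ : AlgebraicClosure ℚ ≃ₐ[ℚ] AlgebraicClosure ℚ) (P : Points A B), p • P = 0 →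
      f (galois A B σ P) = galois A' B' σ (f P)

/-- The invariant of `y² = x³ + Ax + B`. -/
def jInvariant (A B : ℚ) : ℚ := 6912 * A ^ 3 / (4 * A ^ 3 + 27 * B ^ 2)

/-- The number of points of `y² = x³ + Ax + B` over the field with `l` elements, with the point at
infinity. -/
noncomputable def numPoints (l : ℕ) (A B : ℤ) : ℕ :=
  1 + Nat.card {P : ZMod l × ZMod l // P.2 ^ 2 = P.1 ^ 3 + (A : ZMod l) * P.1 + (B : ZMod l)}

/-- The two curves have the same number of points modulo all but finitely many primes. By Faltings'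
theorem they are isogenous over `ℚ` if and only if this holds. -/
def Isogenous (A B A' B' : ℤ) : Prop := {l : ℕ | l.Prime ∧ numPoints l A B ≠ numPoints l A' B'}.Finite

/-- **The uniform Frey-Mazur conjecture for partners with small denominator.** -/
theorem result (c : ℕ) (hc : 0 < c) : ∃ C : ℕ, ∀ p : ℕ, p.Prime → C < p →
    ∀ A₁ B₁ d A₂ B₂ : ℤ, 4 * A₁ ^ 3 + 27 * B₁ ^ 2 ≠ 0 → 4 * A₂ ^ 3 + 27 * B₂ ^ 2 ≠ 0 → d ≠ 0 →
      (∀ l : ℕ, l.Prime → (l : ℤ) ∣ 4 * A₁ ^ 3 + 27 * B₁ ^ 2 → l ∣ c) →
      Congruent p (A₂ : ℚ) (B₂ : ℚ) ((A₁ * d ^ 2 : ℤ) : ℚ) ((B₁ * d ^ 3 : ℤ) : ℚ) →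
        Isogenous A₂ B₂ (A₁ * d ^ 2) (B₁ * d ^ 3) ∨
          ((Real.sqrt p - 1) ^ (2 * p) ≤ ((jInvariant (A₂ : ℚ) (B₂ : ℚ)).den : ℝ) ∧
            ∃ l : ℕ, l.Prime ∧ ¬ l ∣ 6 * c ∧ l ∣ (jInvariant (A₂ : ℚ) (B₂ : ℚ)).den ∧
              p ∣ padicValNat l (jInvariant (A₂ : ℚ) (B₂ : ℚ)).den ∧
              (p : ℝ) ≤ (Real.sqrt l + 1) ^ 2 ∧
              (l = p ∨ (p : ℤ) ∣ numPoints l A₁ B₁ ∨
                (p : ℤ) ∣ 2 * (l : ℤ) + 2 - numPoints l A₁ B₁)) := by
  obtain ⟨R, p₀, hR⟩ := Pool.Agent.Q46.FR.finQ c hc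
  refine ⟨p₀ + 17, ?_⟩
  intro p hp hCp A₁ B₁ d A₂ B₂ hD₁ hD₂ hd hgood hf
  have e1 : ((A₁ * d ^ 2 : ℤ) : ℚ) = (A₁ : ℚ) * (d : ℚ) ^ 2 := by push_cast; ring
  have e2 : ((B₁ * d ^ 3 : ℤ) : ℚ) = (B₁ : ℚ) * (d : ℚ) ^ 3 := by push_cast; ring
  rw [e1, e2] at hf
  obtain ⟨f, h1, h2, h3⟩ := hf
  rcases hR A₁ B₁ hD₁ hgood d A₂ B₂ hd hD₂ p hp (by omega) f ⟨h1, h2, h3⟩ with
    ⟨-, h⟩ | ⟨l, k1, k2, -, k4, k5, k6, k7⟩
  · exact Or.inl (h (by omega))
  · right
    exact ⟨Pool.Agent.Q46.FR.den_large k1 (Rat.den_nz _) hp.one_le k6 k4 k5, l, k1, k2, k4, k5, k6, k7⟩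

end Pool.Agent.Results.MP_f5d5f4_nt.PartnersWithSmallDenominator
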