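import Pool.Agent.Q13.FS.Family

/-!
# MP_f5d5f4_nt: 100% of the members of a one-parameter family against all curves whose invariant has a
denominator in a sparse set

Let `F, G` be integer polynomials and let `E_t` be an elliptic curve with the invariant
`j(t) = F(t)/G(t)`, `t` an integer; all twists are admitted.  Suppose that some irreducible polynomial
`P`, not constant, divides `G` exactly `w ≥ 1` times and does not divide `F` (the family has a fibre of
type `I_w`, or `I_w*`, along `P = 0`).  Let `N ≥ 13`, `N > w`, `N > deg P`.  We consider all primes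
`ℓ ≥ N`, all number fields `L` whose degree is prime to `ℓ` and less than `(ℓ² - 1)/8` (for instance all
`L` of degree less than `ℓ`) and ALL elliptic curves `E'` over `L`.  We call `E'` a partner of `E_t` if
it has the same `ℓ`-division field over `L` as some curve over `L` with the invariant `j(t)`; this
holds if `E'[ℓ]` and the `ℓ`-torsion of the curve are isomorphic Galois modules over `L` (part 3).
An integer `d ≠ 0` is a denominator of `E'` if `d j(E')` is an algebraic integer; there is no other
condition on `j(E')`.

(1) For all `c, K, ε > 0` and all large `T`, for EVERY set `D` of at most `T^(1-c)` integers of absolute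
value at most `T^K`: at most `ε T` of the integers `t`, `|t| ≤ T`, are such that `E_t` has a partner
with a denominator in `D`.  How large `T` must be does not depend on `D`.  The exponent is optimal:
the set of the `2T + 1` numbers `G(t)` contains a denominator of every member.

For example, `D` can consist of the denominators of the members `E'_s`, `|s| ≤ T^(1-c)`, of any other
one-parameter family: 100% of the `E_t`, `|t| ≤ T`, are not congruent modulo any prime `ℓ ≥ N`, over any
`L` as above, to any of these `E'_s`.

(2) If a set `S` of positive integers has at most `C X^β` elements up to `X` and `β θ < 1`, then 100% of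
the `E_t`, `|t| ≤ T`, have no partner with a denominator in `S` up to `T^θ`.

So the uniform conjecture of Frey and Mazur, with the explicit bound `N`, holds for 100% of the members
of each such family against any sparse set of curves.  There is no condition on the degree of `P`.

Proof.  Let `q` be a large prime dividing `P(t)`, `v = v_q(P(t)) < N`.  Since `ℓ` does not divide the
degree of `L`, there is a place of `L` above `q` with ramification index prime to `ℓ`; there
`j(t)` has the valuation `- e w v`, not divisible by `ℓ`, and by the local theorem of the starting library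
(`Y673/FM`) the invariant of a partner has a pole, so that `q` divides `d`.  For almost all `t` the value
`P(t)` has no divisor `q²` with `z < q ≤ T^(1-η)` and only a bounded factor composed of primes up to `z`.
If it has no divisor `q²` with `q > z` at all, then `P(t) = s m` with `s ∣ d` and `m` bounded, and there
are at most `T^η` such `t` for each `d`.  Otherwise some prime `q > T^(1-η)` divides `P(t)` and `d`; there
are at most `T^(2η)` such `t` for each `d`.  This uses no square-free sieve for large `q`.
-/

set_option autoImplicit false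

open NumberField Filter Topology
open scoped Classical Polynomial

namespace Pool.Agent.Results.MP_f5d5f4_nt.SparseSetsInFamilies

section
variable {L : Type} [Field L]

/-- The curve `y² = x³ + Ax + B` over `L`. -/
def curve (A B : L) : WeierstrassCurve L := ⟨0, 0, 0, A, B⟩

/-- The group of its points over the algebraic closure of `L`. -/
abbrev Points (A B : L) : Type := ((curve A B).baseChange (AlgebraicClosure L)).toAffine.Point

/-- The action of an `L`-automorphism `σ` of the algebraic closure on the points. -/
noncomputable def galois (A B : L) (σ : AlgebraicClosure L ≃ₐ[L] AlgebraicClosure L) :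
    Points A B →+ Points A B :=
  WeierstrassCurve.Affine.Point.map (σ : AlgebraicClosure L →ₐ[L] AlgebraicClosure L)

/-- The curves have the same `n`-division field over `L`: an automorphism fixes all points killed by
`n` of the first if and only if it fixes all points killed by `n` of the second. -/
def SameDivisionField (n : ℕ) (A B A' B' : L) : Prop :=
  ∀ σ : AlgebraicClosure L ≃ₐ[L] AlgebraicClosure L,
    (∀ P : Points A B, n • P = 0 → galois A B σ P = P) ↔
      (∀ P : Points A' B', n • P = 0 → galois A' B' σ P = P)

/-- The `n`-torsion modules are isomorphic over `L`: some map between the groups of points restricts to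
a bijective additive map of the points killed by `n` which commutes with the Galois group of `L`. -/
def Congruent (n : ℕ) (A B A' B' : L) : Prop :=
  ∃ f : Points A B → Points A' B', (∀ P Q, n • P = 0 → n • Q = 0 → f (P + Q) = f P + f Q) ∧
    Set.BijOn f {P | n • P = 0} {Q | n • Q = 0} ∧
    ∀ (σ : AlgebraicClosure L ≃ₐ[L] AlgebraicClosure L) (P : Points A B), n • P = 0 →
      f (galois A B σ P) = galois A' B' σ (f P)

/-- The invariant of `y² = x³ + Ax + B`. -/
noncomputable def jInvariant (A B : L) : L := 6912 * A ^ 3 / (4 * A ^ 3 + 27 * B ^ 2)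

end

/-- For some prime `ℓ ≥ N` and some number field `L` of degree prime to `ℓ` and less than
`(ℓ² - 1) / 8` there are elliptic curves over `L` with the same `ℓ`-division field, the first one with
the invariant `j`, the second one with an invariant whose product with `d` is an algebraic integer. -/
def HasPartner (N : ℕ) (j : ℚ) (d : ℤ) : Prop :=
  ∃ ℓ : ℕ, ℓ.Prime ∧ N ≤ ℓ ∧ ∃ (L : Type) (_ : Field L) (_ : NumberField L),
    ¬ ℓ ∣ Module.finrank ℚ L ∧ 8 * Module.finrank ℚ L < ℓ ^ 2 - 1 ∧ ∃ A B A' B' : L,
      4 * A ^ 3 + 27 * B ^ 2 ≠ 0 ∧ 4 * A' ^ 3 + 27 * B' ^ 2 ≠ 0 ∧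
      jInvariant A B = algebraMap ℚ L j ∧
      IsIntegral ℤ ((d : L) * jInvariant A' B') ∧ SameDivisionField ℓ A B A' B'

theorem hasPartner {N : ℕ} {a b d : ℤ} (h : HasPartner N ((a : ℚ) / (b : ℚ)) d) :
    Pool.Agent.Q13.FS.PartJ N d a b := by
  obtain ⟨ℓ, hℓ, h13, L, iF, iN, hn, hL, A, B, A', B', hD, hD', hj, hint, hF⟩ := h
  refine ⟨ℓ, hℓ, h13, L, iF, iN, hn, hL, A, B, A', B', hD, hD', hj.trans ?_, hint, hF⟩
  rw [map_div₀, map_intCast, map_intCast]

/-- **100% of the members of a one-parameter family have no partner over any number field of moderate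
degree with a denominator in a sparse set.** -/
theorem result :
    (∀ (F G P : ℤ[X]) (w N : ℕ), Irreducible P → 0 < P.natDegree → 1 ≤ w → P ^ w ∣ G →
      ¬ P ^ (w + 1) ∣ G → ¬ P ∣ F → 13 ≤ N → w < N → P.natDegree < N →
      (∀ c K ε : ℝ, 0 < c → 0 < ε → ∃ T₀ : ℕ, ∀ T : ℕ, T₀ ≤ T → ∀ D : Finset ℤ,
        (D.card : ℝ) ≤ (T : ℝ) ^ (1 - c) → (∀ d ∈ D, (|d| : ℝ) ≤ (T : ℝ) ^ K) →
          (({t | |t| ≤ (T : ℤ) ∧ G.eval t ≠ 0 ∧ ∃ d ∈ D, d ≠ 0 ∧
            HasPartner N (((F.eval t : ℤ) : ℚ) / ((G.eval t : ℤ) : ℚ)) d} : Set ℤ).ncard : ℝ) ≤ ε * T) ∧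
      (∀ (S : Set ℕ) (β θ C : ℝ), 0 < β → 0 < θ → β * θ < 1 →
        (∀ X : ℝ, 1 ≤ X → (({d | d ∈ S ∧ (d : ℝ) ≤ X} : Set ℕ).ncard : ℝ) ≤ C * X ^ β) →
        Tendsto (fun T : ℕ => (({t | |t| ≤ (T : ℤ) ∧ G.eval t ≠ 0 ∧
          ∃ d ∈ S, d ≠ 0 ∧ (d : ℝ) ≤ (T : ℝ) ^ θ ∧
            HasPartner N (((F.eval t : ℤ) : ℚ) / ((G.eval t : ℤ) : ℚ)) d} : Set ℤ).ncard : ℝ) / T)
          atTop (𝓝 0))) ∧
    (∀ (L : Type) [Field L] (n : ℕ) (A B A' B' : L), Congruent n A B A' B' →
      SameDivisionField n A B A' B') := by
  refine ⟨fun F G P w N hP hPd hw hw1 hw2 hPF hN13 hNw hNd => ⟨fun c K ε hc hε => ?_,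
    fun S β θ C hβ hθ hβθ hS => ?_⟩, ?_⟩
  · obtain ⟨T₀, h⟩ := Pool.Agent.Q13.FS.family F G P hP hPd w hw hw1 hw2 hPF N hN13 hNw hNd
      c K ε hc hε
    refine ⟨T₀, fun T hT D hDc hD => le_trans (Nat.cast_le.2 (Set.ncard_le_ncard ?_ ?_))
      (h T hT D hDc hD)⟩
    · rintro t ⟨ht, hG, d, hdD, hd0, hP'⟩
      exact ⟨ht, hG, d, hdD, hd0, hasPartner hP'⟩
    · exact ((Finset.Icc (-(T : ℤ)) T).finite_toSet).subset fun t ht => by
        rw [Finset.mem_coe, Finset.mem_Icc]
        exact abs_le.1 ht.1
  · have h := Pool.Agent.Q13.FS.family_lim F G P hP hPd w hw hw1 hw2 hPF N hN13 hNw hNd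
      S β θ C hβ hθ hβθ hS
    refine squeeze_zero (fun T => by positivity) (fun T => ?_) h
    refine div_le_div_of_nonneg_right (Nat.cast_le.2 (Set.ncard_le_ncard ?_ ?_))
      (Nat.cast_nonneg _)
    · rintro t ⟨ht, hG, d, hdS, hd0, hle, hP'⟩
      exact ⟨ht, hG, d, hdS, hd0, hle, hasPartner hP'⟩
    · exact ((Finset.Icc (-(T : ℤ)) T).finite_toSet).subset fun t ht => by
        rw [Finset.mem_coe, Finset.mem_Icc]
        exact abs_le.1 ht.1
  · rintro L _ n A B A' B' ⟨f, -, h1, h2⟩ σ
    constructor
    · intro h Q hQ
      obtain ⟨P, hP, rfl⟩ := h1.surjOn (show Q ∈ {Q | n • Q = 0} from hQ)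
      rw [← h2 σ P hP, h P hP]
    · intro h P hP
      have h3 : n • galois A B σ P = 0 := by
        rw [← map_nsmul]
        have : n • P = 0 := hP
        rw [this, map_zero]
      refine h1.injOn (show galois A B σ P ∈ {P | n • P = 0} from h3)
        (show P ∈ {P | n • P = 0} from hP) ?_
      rw [h2 σ P hP]
      exact h _ (h1.mapsTo (show P ∈ {P | n • P = 0} from hP))

end Pool.Agent.Results.MP_f5d5f4_nt.SparseSetsInFamilies
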